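import Pool.Agent.W323.SC.Stm

/-! Sets consisting of a two by two minor and one more cell (part P4 of project SC). -/

set_option autoImplicit false
open Finset
open scoped Classical
open Pool.Agent.W323.SC

namespace Pool.Agent.W740.SC

/-- The set `U` with its five cells. -/
def R {α ι κ : Type} (a : α → ι) (b : α → κ) (U : Finset α) (p p' s s' u : α) : Prop :=
  U = {p, p', s, s', u} ∧ dj a b p p' ∧ a s = a p ∧ b s = b p' ∧ a s' = a p' ∧ b s' = b p ∧
    u ≠ p ∧ u ≠ p' ∧ u ≠ s ∧ u ≠ s'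

theorem w_nonneg {α : Type} {y : α → ℝ} (hy : ∀ p, 0 ≤ y p) (S : Finset α) : 0 ≤ w y S :=
  Finset.prod_nonneg fun p _ => hy p

theorem half {α ι κ : Type} [Fintype α] (a : α → ι) (b : α → κ) (hI : Inj a b) (y : α → ℝ)
    (hy : ∀ p, 0 ≤ y p) (S : Finset (Finset α)) (p p' s s' u : Finset α → α)
    (h : ∀ U ∈ S, R a b U (p U) (p' U) (s U) (s' U) (u U)) :
    ∑ U ∈ S, y (u U) * (y (p U) * y (p' U)) ^ 2 ≤
      ∑ W ∈ (univ : Finset α).powersetCard 3, w y W * ∑ q ∈ prs a b W, w y q := by
  have e : ∑ W ∈ (univ : Finset α).powersetCard 3, w y W * ∑ q ∈ prs a b W, w y q =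
      ∑ x ∈ ((univ : Finset α).powersetCard 3).sigma (fun W => prs a b W),
        w y x.1 * w y x.2 := by
    rw [Finset.sum_sigma]
    exact Finset.sum_congr rfl fun W _ => Finset.mul_sum _ _ _
  let f : Finset α → (Σ _ : Finset α, Finset α) := fun U => ⟨{u U, p U, p' U}, {p U, p' U}⟩
  have hpp : ∀ U ∈ S, p U ≠ p' U := by
    intro U hU h1
    exact (h U hU).2.1.1 (by rw [h1])
  have hF : ∀ U ∈ S, y (u U) * (y (p U) * y (p' U)) ^ 2 = w y (f U).1 * w y (f U).2 := by
    intro U hU
    obtain ⟨-, -, -, -, -, -, h1, h2, -, -⟩ := h U hU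
    have e1 : w y {p U, p' U} = y (p U) * y (p' U) := by
      unfold w
      rw [Finset.prod_pair (hpp U hU)]
    have e2 : w y {u U, p U, p' U} = y (u U) * (y (p U) * y (p' U)) := by
      unfold w
      rw [Finset.prod_insert, Finset.prod_pair (hpp U hU)]
      simp [h1, h2]
    change _ = w y {u U, p U, p' U} * w y {p U, p' U}
    rw [e1, e2]
    ring
  have hinj : Set.InjOn f (S : Set (Finset α)) := by
    intro U hU V hV hUV
    have hU' : U ∈ S := hU
    have hV' : V ∈ S := hV
    have h1 : ({u U, p U, p' U} : Finset α) = {u V, p V, p' V} := congrArg Sigma.fst hUV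
    have h2 : ({p U, p' U} : Finset α) = {p V, p' V} := by
      have h3 : (f U).2 = (f V).2 := by rw [hUV]
      exact h3
    obtain ⟨eU, dU, a1, b1, a2, b2, u1, u2, u3, u4⟩ := h U hU'
    obtain ⟨eV, dV, a3, b3, a4, b4, u5, u6, u7, u8⟩ := h V hV'
    have hu : u U = u V := by
      have h3 : u U ∈ ({u V, p V, p' V} : Finset α) := by rw [← h1]; simp
      have h4 : u U ∉ ({p V, p' V} : Finset α) := by rw [← h2]; simp [u1, u2]
      rw [Finset.mem_insert] at h3
      exact h3.resolve_right h4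
    have hp1 : p U = p V ∨ p U = p' V := by
      have h3 : p U ∈ ({p V, p' V} : Finset α) := by rw [← h2]; simp
      simpa using h3
    have hp2 : p' U = p V ∨ p' U = p' V := by
      have h3 : p' U ∈ ({p V, p' V} : Finset α) := by rw [← h2]; simp
      simpa using h3
    have hne := hpp U hU'
    rcases hp1 with h3 | h3
    · have h4 : p' U = p' V := by
        rcases hp2 with h4 | h4
        · exact absurd (h3.trans h4.symm) hne
        · exact h4
      have hs : s U = s V := hI _ _ (by rw [a1, a3, h3]) (by rw [b1, b3, h4])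
      have hs' : s' U = s' V := hI _ _ (by rw [a2, a4, h4]) (by rw [b2, b4, h3])
      rw [eU, eV, h3, h4, hs, hs', hu]
    · have h4 : p' U = p V := by
        rcases hp2 with h4 | h4
        · exact h4
        · exact absurd (h3.trans h4.symm) hne
      have hs : s U = s' V := hI _ _ (by rw [a1, a4, h3]) (by rw [b1, b4, h4])
      have hs' : s' U = s V := hI _ _ (by rw [a2, a3, h4]) (by rw [b2, b3, h3])
      rw [eU, eV, h3, h4, hs, hs', hu]
      ext x
      simp only [Finset.mem_insert, Finset.mem_singleton]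
      tauto
  rw [e, Finset.sum_congr rfl hF,
    ← Finset.sum_image (f := fun x : (Σ _ : Finset α, Finset α) => w y x.1 * w y x.2) hinj]
  refine Finset.sum_le_sum_of_subset_of_nonneg ?_
    (fun x _ _ => mul_nonneg (w_nonneg hy _) (w_nonneg hy _))
  intro x hx
  obtain ⟨U, hU, rfl⟩ := Finset.mem_image.1 hx
  obtain ⟨eU, dU, a1, b1, a2, b2, u1, u2, u3, u4⟩ := h U hU
  have hc2 : ({p U, p' U} : Finset α).card = 2 := Finset.card_pair (hpp U hU)
  rw [Finset.mem_sigma]
  refine ⟨?_, ?_⟩
  · change ({u U, p U, p' U} : Finset α) ∈ _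
    rw [Finset.mem_powersetCard]
    refine ⟨Finset.subset_univ _, ?_⟩
    rw [Finset.card_insert_of_notMem (by simp [u1, u2]), hc2]
  · change ({p U, p' U} : Finset α) ∈ prs a b {u U, p U, p' U}
    unfold prs
    rw [Finset.mem_filter, Finset.mem_powersetCard]
    refine ⟨⟨Finset.subset_insert _ _, hc2⟩, p U, by simp, p' U, by simp, dU⟩

theorem R_swap {α ι κ : Type} {a : α → ι} {b : α → κ} {U : Finset α} {p p' s s' u : α}
    (h : R a b U p p' s s' u) : R a b U s s' p p' u := by
  obtain ⟨e, d, a1, b1, a2, b2, u1, u2, u3, u4⟩ := h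
  refine ⟨?_, ⟨?_, ?_⟩, a1.symm, b2.symm, a2.symm, b1.symm, u3, u4, u1, u2⟩
  · rw [e]
    ext x
    simp only [Finset.mem_insert, Finset.mem_singleton]
    tauto
  · rw [a1, a2]
    exact d.1
  · rw [b1, b2]
    exact d.2.symm

theorem w_eq {α ι κ : Type} {a : α → ι} {b : α → κ} {U : Finset α} {p p' s s' u : α}
    (h : R a b U p p' s s' u) (y : α → ℝ) :
    w y U = y u * (y p * y p') * (y s * y s') := by
  obtain ⟨e, d, a1, b1, a2, b2, u1, u2, u3, u4⟩ := h
  have h1 : p ≠ p' := fun h => d.1 (by rw [h])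
  have h2 : p ≠ s := fun h => d.2 (by rw [← b1, h])
  have h3 : p ≠ s' := fun h => d.1 (by rw [← a2, h])
  have h4 : p' ≠ s := fun h => d.1 (by rw [← a1, h])
  have h5 : p' ≠ s' := fun h => d.2 (by rw [← b2, h])
  have h6 : s ≠ s' := fun h => d.1 (by rw [← a1, ← a2, h])
  unfold w
  rw [e, Finset.prod_insert (by simp [h1, h2, h3, u1.symm]),
    Finset.prod_insert (by simp [h4, h5, u2.symm]),
    Finset.prod_insert (by simp [h6, u3.symm]), Finset.prod_pair u4.symm]
  ring

theorem p4 : S_P4 := by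
  intro α ι κ _ a b hI y hy
  have hpos : 0 ≤ ∑ W ∈ (univ : Finset α).powersetCard 3, w y W * ∑ q ∈ prs a b W, w y q :=
    Finset.sum_nonneg fun W _ =>
      mul_nonneg (w_nonneg hy _) (Finset.sum_nonneg fun q _ => w_nonneg hy _)
  rcases isEmpty_or_nonempty α with hα | hα
  · refine le_trans (Finset.sum_nonpos fun U hU => ?_) hpos
    exfalso
    have h1 := (Finset.mem_powersetCard.1 (Finset.mem_filter.1 hU).1).2
    rw [Finset.eq_empty_of_isEmpty U] at h1
    simp at h1
  · have hR : ∀ U : Finset α, ∃ t : α × α × α × α × α,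
        cp a b U → R a b U t.1 t.2.1 t.2.2.1 t.2.2.2.1 t.2.2.2.2 := by
      intro U
      by_cases hU : cp a b U
      · obtain ⟨p, -, p', -, s, -, s', -, u, -, h⟩ := hU
        exact ⟨(p, p', s, s', u), fun _ => h⟩
      · obtain ⟨x⟩ := hα
        exact ⟨(x, x, x, x, x), fun h => absurd h hU⟩
    choose t ht using hR
    have hS : ∀ U ∈ ((univ : Finset α).powersetCard 5).filter (fun U => cp a b U),
        R a b U (t U).1 (t U).2.1 (t U).2.2.1 (t U).2.2.2.1 (t U).2.2.2.2 :=
      fun U hU => ht U (Finset.mem_filter.1 hU).2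
    have h1 := half a b hI y hy _ _ _ _ _ _ hS
    have h2 := half a b hI y hy _ _ _ _ _ _ (fun U hU => R_swap (hS U hU))
    have h3 : ∑ U ∈ ((univ : Finset α).powersetCard 5).filter (fun U => cp a b U), w y U ≤
        ∑ U ∈ ((univ : Finset α).powersetCard 5).filter (fun U => cp a b U),
          (y (t U).2.2.2.2 * (y (t U).1 * y (t U).2.1) ^ 2 / 2 +
            y (t U).2.2.2.2 * (y (t U).2.2.1 * y (t U).2.2.2.1) ^ 2 / 2) := by
      refine Finset.sum_le_sum fun U hU => ?_
      rw [w_eq (hS U hU) y]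
      have h4 := mul_nonneg (hy (t U).2.2.2.2)
        (sq_nonneg (y (t U).1 * y (t U).2.1 - y (t U).2.2.1 * y (t U).2.2.2.1))
      nlinarith
    rw [Finset.sum_add_distrib, ← Finset.sum_div, ← Finset.sum_div] at h3
    linarith

end Pool.Agent.W740.SC
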